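import Pool.Agent.Q155.Shift.Proof

set_option autoImplicit false

namespace Pool.Agent.Results.MP_2aafb6_co.ShiftIdentity

open Q155.Shift

/-- For all positive integers `b, c, k` with `b ≤ c < 2 b`, the value `N(b, c, k)` is finite and
`N(b + k, c + 2 k, k) = N(b, c, k) + k`. -/
theorem result (b c k : ℕ) (hb : 0 < b) (hk : 0 < k) (hbc : b ≤ c) (hc : c < 2 * b) :
    N (b + k) (c + 2 * k) k = N b c k + k ∧ N b c k ≠ ⊤ :=
  main b c k hb hk hbc hc

end Pool.Agent.Results.MP_2aafb6_co.ShiftIdentity
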